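import Mathlib

set_option autoImplicit false

/-!
# Partition into independent sets for several rank functions, and a recursive version
-/

namespace Pool.Agent.K7.H85.Sidon

open Finset

variable {α : Type*} [DecidableEq α]

/-- Rank functions of matroids on (the finite subsets of) `α`, integer valued. -/
structure IsRank (r : Finset α → ℤ) : Prop where
  empty : r ∅ = 0
  mono : ∀ A B, A ⊆ B → r A ≤ r B
  unit : ∀ x A, r (insert x A) ≤ r A + 1
  submod : ∀ A B, r (A ∪ B) + r (A ∩ B) ≤ r A + r B

lemma IsRank.contract {r : Finset α → ℤ} (h : IsRank r) (B : Finset α) :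
    IsRank (fun A => r (A ∪ B) - r B) := by
  refine ⟨by simp, fun A A' hA => ?_, fun x A => ?_, fun A A' => ?_⟩
  · have := h.mono (A ∪ B) (A' ∪ B) (union_subset_union_left hA)
    linarith
  · have := h.unit x (A ∪ B)
    rw [insert_union]
    linarith
  · have := h.submod (A ∪ B) (A' ∪ B)
    have e1 : A ∪ B ∪ (A' ∪ B) = A ∪ A' ∪ B := by ext; simp; tauto
    have e2 : (A ∪ B) ∩ (A' ∪ B) = A ∩ A' ∪ B := by ext; simp; tauto
    rw [e1, e2] at this
    linarith

lemma IsRank.union_le {r : Finset α → ℤ} (h : IsRank r) (A B : Finset α) :
    r (A ∪ B) ≤ r B + A.card := by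
  induction A using Finset.induction_on with
  | empty => simp
  | insert x A hx ih =>
    rw [insert_union, card_insert_of_notMem hx]
    have := h.unit x (A ∪ B)
    push_cast
    linarith

/-- **Partition theorem** (Rado, Edmonds). -/
theorem partition {κ : Type*} [DecidableEq κ] [Fintype κ] [Nonempty κ] : ∀ (n : ℕ) (r : κ → Finset α → ℤ),
    (∀ c, IsRank (r c)) → ∀ E : Finset α, E.card = n →
    (∀ A, A ⊆ E → (A.card : ℤ) ≤ ∑ c, r c A) →
    ∃ χ : α → κ, ∀ c, ((E.filter (fun x => χ x = c)).card : ℤ) ≤ r c (E.filter (fun x => χ x = c)) := by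
  classical
  intro n
  induction n using Nat.strong_induction_on with
  | _ n ih =>
    intro r hr E hn hE
    rcases E.eq_empty_or_nonempty with rfl | hne
    · exact ⟨fun _ => Classical.arbitrary κ, fun c => by simp [(hr c).empty]⟩
    by_cases hT : ∃ A, A ⊆ E ∧ A.Nonempty ∧ A ≠ E ∧ (A.card : ℤ) = ∑ c, r c A
    · obtain ⟨A, hAE, hA0, hAne, hAt⟩ := hT
      have hlt : A.card < n := by
        rw [← hn]; exact card_lt_card (hAE.ssubset_of_ne hAne)
      obtain ⟨χ₁, h₁⟩ := ih A.card hlt r hr A rfl (fun B hB => hE B (hB.trans hAE))
      have hlt2 : (E \ A).card < n := by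
        rw [← hn]
        refine card_lt_card ⟨sdiff_subset, fun hcon => ?_⟩
        obtain ⟨a, ha⟩ := hA0
        exact (mem_sdiff.1 (hcon (hAE ha))).2 ha
      obtain ⟨χ₂, h₂⟩ := ih (E \ A).card hlt2 (fun c B => r c (B ∪ A) - r c A)
        (fun c => (hr c).contract A) (E \ A) rfl (by
          intro B hB
          have h1 := hE (B ∪ A) (union_subset (hB.trans sdiff_subset) hAE)
          have hdisj : Disjoint B A := by
            rw [Finset.disjoint_left]
            intro a ha
            exact (mem_sdiff.1 (hB ha)).2
          rw [card_union_of_disjoint hdisj] at h1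
          push_cast at h1
          rw [sum_sub_distrib]
          linarith)
      refine ⟨fun x => if x ∈ A then χ₁ x else χ₂ x, fun c => ?_⟩
      set P := A.filter (fun x => χ₁ x = c) with hP
      set Q := (E \ A).filter (fun x => χ₂ x = c) with hQ
      have hU : E.filter (fun x => (if x ∈ A then χ₁ x else χ₂ x) = c) = P ∪ Q := by
        ext x
        simp only [hP, hQ, mem_filter, mem_union, mem_sdiff]
        by_cases hx : x ∈ A
        · simp only [hx, if_true, not_true, and_false, false_and, or_false, true_and]
          exact ⟨fun h => h.2, fun h => ⟨hAE hx, h⟩⟩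
        · simp [hx]
      have hPA : P ⊆ A := filter_subset _ _
      have hQA : Disjoint Q A := by
        rw [Finset.disjoint_left]
        intro a ha
        exact (mem_sdiff.1 ((mem_filter.1 ha).1)).2
      rw [hU, card_union_of_disjoint (hQA.symm.mono_left hPA)]
      have hsub := (hr c).submod (P ∪ Q) A
      have e1 : P ∪ Q ∪ A = Q ∪ A := by
        ext x; simp only [mem_union]
        exact ⟨fun h => h.elim (fun h => h.elim (fun h => Or.inr (hPA h)) Or.inl) Or.inr,
          fun h => h.elim (fun h => Or.inl (Or.inr h)) Or.inr⟩
      have e2 : (P ∪ Q) ∩ A = P := by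
        ext x; simp only [mem_inter, mem_union]
        constructor
        · rintro ⟨h | h, hx⟩
          · exact h
          · exact absurd hx (Finset.disjoint_left.1 hQA h)
        · exact fun h => ⟨Or.inl h, hPA h⟩
      rw [e1, e2] at hsub
      have := h₁ c
      have := h₂ c
      push_cast
      linarith
    · push Not at hT
      obtain ⟨e, he⟩ := hne
      have hone : (1 : ℤ) ≤ ∑ c, r c {e} := by
        have := hE {e} (singleton_subset_iff.2 he)
        simpa using this
      obtain ⟨c₀, hc₀⟩ : ∃ c₀, 1 ≤ r c₀ {e} := by
        by_contra hcon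
        push Not at hcon
        have : ∑ c, r c {e} ≤ 0 := sum_nonpos fun c _ => by have := hcon c; omega
        omega
      have hc₀' : r c₀ {e} ≤ 1 := by
        have := (hr c₀).unit e ∅
        rw [(hr c₀).empty] at this
        simpa using this
      let r' : κ → Finset α → ℤ := fun c A => if c = c₀ then r c (A ∪ {e}) - r c {e} else r c A
      have hr' : ∀ c, IsRank (r' c) := by
        intro c
        by_cases hc : c = c₀
        · have : r' c = fun A => r c (A ∪ {e}) - r c {e} := by funext A; simp [r', hc]
          rw [this]; exact (hr c).contract {e}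
        · have : r' c = r c := by funext A; simp [r', hc]
          rw [this]; exact hr c
      have hlt : (E.erase e).card < n := by rw [← hn]; exact card_erase_lt_of_mem he
      obtain ⟨χ₁, h₁⟩ := ih (E.erase e).card hlt r' hr' (E.erase e) rfl (by
        intro A hA
        rcases A.eq_empty_or_nonempty with rfl | hA0
        · simp only [card_empty, Nat.cast_zero]
          refine sum_nonneg fun c _ => ?_
          rw [(hr' c).empty]
        · have hAE : A ⊆ E := hA.trans (erase_subset _ _)
          have hAne : A ≠ E := by
            rintro rfl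
            exact notMem_erase e A (hA he)
          have h1 := hT A hAE hA0 hAne
          have h2 := hE A hAE
          have h3 : (A.card : ℤ) ≤ ∑ c, r c A - 1 := by omega
          have h4 : ∑ c, r c A - 1 ≤ ∑ c, r' c A := by
            have h5 : ∑ c, (r c A - r' c A) ≤ 1 := by
              rw [Finset.sum_eq_single c₀]
              · simp only [r', if_true]
                have := (hr c₀).mono A (A ∪ {e}) subset_union_left
                omega
              · intro c _ hc
                simp [r', hc]
              · simp
            rw [sum_sub_distrib] at h5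
            linarith
          linarith)
      refine ⟨Function.update χ₁ e c₀, fun c => ?_⟩
      by_cases hc : c = c₀
      · subst hc
        have hU : E.filter (fun x => Function.update χ₁ e c x = c) =
            insert e ((E.erase e).filter (fun x => χ₁ x = c)) := by
          ext x
          by_cases hx : x = e
          · subst hx; simp [he]
          · simp [hx, Function.update_of_ne]
        rw [hU, card_insert_of_notMem (by simp)]
        have h2 := h₁ c
        simp only [r', if_true] at h2
        have e3 : (E.erase e).filter (fun x => χ₁ x = c) ∪ {e} =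
            insert e ((E.erase e).filter (fun x => χ₁ x = c)) := by
          rw [union_comm, ← insert_eq]
        rw [e3] at h2
        push_cast
        linarith
      · have hU : E.filter (fun x => Function.update χ₁ e c₀ x = c) =
            (E.erase e).filter (fun x => χ₁ x = c) := by
          ext x
          by_cases hx : x = e
          · subst hx; simp [Ne.symm hc]
          · simp [hx, Function.update_of_ne]
        rw [hU]
        have h2 := h₁ c
        simp only [r', if_neg hc] at h2
        exact h2

/-- **Recursive partition.** The rank functions may depend on the ambient finite set. -/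
theorem recursive {κ : Type*} [DecidableEq κ] [Fintype κ] [Nonempty κ] (R : Finset α → κ → Finset α → ℤ)
    (good : Finset α → Prop) (hR : ∀ I c, IsRank (R I c)) (h0 : good ∅)
    (hcomb : ∀ (I J A B : Finset α) (c : κ), J ⊆ I → A ⊆ I \ J → B ⊆ J → good B →
      (A.card : ℤ) ≤ R I c (A ∪ J) - R I c J → good (A ∪ B)) :
    ∀ (n : ℕ) (I : Finset α), I.card = n → (∀ J, J ⊆ I → (J.card : ℤ) ≤ ∑ c, R J c J) →
    ∃ χ : α → κ, ∀ c, good (I.filter (fun x => χ x = c)) := by
  classical
  intro n
  induction n using Nat.strong_induction_on with
  | _ n ih =>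
    intro I hn hI
    rcases I.eq_empty_or_nonempty with rfl | hne
    · exact ⟨fun _ => Classical.arbitrary κ, fun c => by simpa using h0⟩
    let g : Finset α → ℤ := fun A => (A.card : ℤ) - ∑ c, R I c A
    have hg0 : g ∅ = 0 := by
      simp only [g, card_empty, Nat.cast_zero, zero_sub, neg_eq_zero]
      exact sum_eq_zero fun c _ => (hR I c).empty
    have hgI : g I ≤ 0 := by
      have := hI I subset_rfl
      simp only [g]; linarith
    obtain ⟨J, hJI, hJne, hJmax⟩ : ∃ J, J ⊆ I ∧ J ≠ I ∧ ∀ A, A ⊆ I → g A ≤ g J := by
      by_cases hpos : ∃ A, A ⊆ I ∧ 0 < g A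
      · obtain ⟨J, hJ, hJmax⟩ := exists_max_image I.powerset g ⟨∅, by simp⟩
        refine ⟨J, mem_powerset.1 hJ, ?_, fun A hA => hJmax A (mem_powerset.2 hA)⟩
        rintro rfl
        obtain ⟨A, hA, hA'⟩ := hpos
        have := hJmax A (mem_powerset.2 hA)
        linarith
      · push Not at hpos
        exact ⟨∅, empty_subset _, hne.ne_empty.symm, fun A hA => by rw [hg0]; exact hpos A hA⟩
    have hlt : J.card < n := by
      rw [← hn]; exact card_lt_card (hJI.ssubset_of_ne hJne)
    obtain ⟨χ₁, h₁⟩ := ih J.card hlt J rfl (fun A hA => hI A (hA.trans hJI))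
    obtain ⟨χ₂, h₂⟩ := partition (I \ J).card (fun c B => R I c (B ∪ J) - R I c J)
      (fun c => (hR I c).contract J) (I \ J) rfl (by
        intro B hB
        have h1 := hJmax (B ∪ J) (union_subset (hB.trans sdiff_subset) hJI)
        have hdisj : Disjoint B J := by
          rw [Finset.disjoint_left]
          intro a ha
          exact (mem_sdiff.1 (hB ha)).2
        simp only [g] at h1
        rw [card_union_of_disjoint hdisj] at h1
        push_cast at h1
        rw [sum_sub_distrib]
        linarith)
    refine ⟨fun x => if x ∈ J then χ₁ x else χ₂ x, fun c => ?_⟩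
    have hU : I.filter (fun x => (if x ∈ J then χ₁ x else χ₂ x) = c) =
        (I \ J).filter (fun x => χ₂ x = c) ∪ J.filter (fun x => χ₁ x = c) := by
      ext x
      simp only [mem_filter, mem_union, mem_sdiff]
      by_cases hx : x ∈ J
      · simp only [hx, if_true, not_true, and_false, false_and, false_or, true_and]
        exact ⟨fun h => h.2, fun h => ⟨hJI hx, h⟩⟩
      · simp [hx]
    rw [hU]
    exact hcomb I J _ _ c hJI (filter_subset _ _) (filter_subset _ _) (h₁ c) (h₂ c)

end Pool.Agent.K7.H85.Sidon
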