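import Mathlib
import Pool.Agent.K7.H85.Sidon.Partition

set_option autoImplicit false

/-!
# Quasi-independent sets in abelian groups of bounded exponent
-/

namespace Pool.Agent.K7.H85.Sidon

open Finset

/-- A set `Λ` in an abelian group is quasi-independent: for distinct elements `x ∈ Λ` and coefficients
`ξ x ∈ {-1, 0, 1}`, the relation `∑ ξ x • x = 0` forces all coefficients to vanish. -/
def QuasiIndependent {Γ : Type*} [AddCommGroup Γ] (Λ : Set Γ) : Prop :=
  ∀ (s : Finset Γ) (ξ : Γ → ℤ), ↑s ⊆ Λ → (∀ x ∈ s, ξ x = -1 ∨ ξ x = 0 ∨ ξ x = 1) →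
    ∑ x ∈ s, ξ x • x = 0 → ∀ x ∈ s, ξ x = 0

/-- Ranks of finite families of vectors. -/
lemma isRank_finrank {α : Type*} [DecidableEq α] (K : Type*) [Field K] {V : Type*} [AddCommGroup V]
    [Module K V] (v : α → V) :
    IsRank (fun A : Finset α => (Module.finrank K (Submodule.span K (v '' (A : Set α))) : ℤ)) := by
  have hfin : ∀ A : Finset α, FiniteDimensional K (Submodule.span K (v '' (A : Set α))) :=
    fun A => FiniteDimensional.span_of_finite K (A.finite_toSet.image v)
  have hmono : ∀ A B : Finset α, A ⊆ B → Module.finrank K (Submodule.span K (v '' (A : Set α))) ≤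
      Module.finrank K (Submodule.span K (v '' (B : Set α))) := by
    intro A B hAB
    have := hfin B
    exact Submodule.finrank_mono (Submodule.span_mono (Set.image_mono (by exact_mod_cast hAB)))
  have hsub : ∀ A B : Finset α, Module.finrank K (Submodule.span K (v '' ((A ∪ B : Finset α) : Set α))) +
      Module.finrank K (Submodule.span K (v '' ((A ∩ B : Finset α) : Set α))) ≤
      Module.finrank K (Submodule.span K (v '' (A : Set α))) +
      Module.finrank K (Submodule.span K (v '' (B : Set α))) := by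
    intro A B
    have := hfin A
    have := hfin B
    have e0 := Submodule.finrank_sup_add_finrank_inf_eq (Submodule.span K (v '' (A : Set α)))
      (Submodule.span K (v '' (B : Set α)))
    have e1 : Submodule.span K (v '' ((A ∪ B : Finset α) : Set α)) =
        Submodule.span K (v '' (A : Set α)) ⊔ Submodule.span K (v '' (B : Set α)) := by
      rw [coe_union, Set.image_union, Submodule.span_union]
    have e2 : Module.finrank K (Submodule.span K (v '' ((A ∩ B : Finset α) : Set α))) ≤
        Module.finrank K ((Submodule.span K (v '' (A : Set α)) ⊓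
          Submodule.span K (v '' (B : Set α)) : Submodule K V)) := by
      refine Submodule.finrank_mono (le_inf ?_ ?_)
      · exact Submodule.span_mono (Set.image_mono (by simp))
      · exact Submodule.span_mono (Set.image_mono (by simp))
    rw [e1]
    omega
  refine ⟨?_, fun A B hAB => by exact_mod_cast hmono A B hAB, fun x A => ?_,
    fun A B => by exact_mod_cast hsub A B⟩
  · simp
  · have h1 := hsub {x} A
    have h2 : Module.finrank K (Submodule.span K (v '' (({x} : Finset α) : Set α))) ≤ 1 := by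
      rw [coe_singleton, Set.image_singleton]
      exact (finrank_span_le_card ({v x} : Set V)).trans (by simp)
    rw [← insert_eq] at h1
    have h3 : Module.finrank K (Submodule.span K (v '' ((insert x A : Finset α) : Set α))) ≤
      Module.finrank K (Submodule.span K (v '' (A : Set α))) + 1 := by omega
    exact_mod_cast h3

section Group

variable {Γ : Type*} [AddCommGroup Γ]

/-- The subgroup generated by a finite set. -/
abbrev gen (I : Finset Γ) : AddSubgroup Γ := AddSubgroup.closure (I : Set Γ)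

/-- The subgroup `p H` of an abelian group `H`. -/
abbrev pmul (p : ℕ) (H : Type*) [AddCommGroup H] : AddSubgroup H := (nsmulAddMonoidHom p : H →+ H).range

/-- The quotient `H / p H`. -/
abbrev quo (p : ℕ) (H : Type*) [AddCommGroup H] : Type _ := H ⧸ pmul p H

noncomputable instance quoModule (p : ℕ) (H : Type*) [AddCommGroup H] : Module (ZMod p) (quo p H) :=
  QuotientAddGroup.zmodModule fun x => ⟨x, rfl⟩

open Classical in
/-- The class of `x` in `⟨I⟩ / p ⟨I⟩` (zero if `x` is not in `⟨I⟩`). -/
noncomputable def cls (p : ℕ) (I : Finset Γ) (x : Γ) : quo p (gen I) :=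
  if h : x ∈ gen I then QuotientAddGroup.mk ⟨x, h⟩ else 0

lemma cls_of_mem (p : ℕ) {I : Finset Γ} {x : Γ} (h : x ∈ gen I) :
    cls p I x = QuotientAddGroup.mk' (pmul p (gen I)) ⟨x, h⟩ := by
  rw [cls, dif_pos h]; rfl

lemma relation (p : ℕ) (I : Finset Γ) (s : Finset Γ) (hs : s ⊆ I) (ξ : Γ → ℤ)
    (h : ∑ x ∈ s, ξ x • x = 0) : ∑ x ∈ s, (ξ x : ZMod p) • cls p I x = 0 := by
  classical
  have hmem : ∀ x ∈ s, x ∈ gen I := fun x hx => AddSubgroup.subset_closure (hs hx)
  have h1 : ∑ x ∈ s.attach, ξ x • (⟨x, hmem x x.2⟩ : gen I) = 0 := by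
    apply Subtype.ext
    rw [AddSubgroup.val_finsetSum]
    simp only [AddSubgroup.coe_zsmul, ZeroMemClass.coe_zero]
    rw [← h]
    exact s.sum_attach (fun x => ξ x • x)
  have h2 := congrArg (QuotientAddGroup.mk' (pmul p (gen I))) h1
  rw [map_sum, map_zero] at h2
  rw [← s.sum_attach, ← h2]
  refine sum_congr rfl fun x _ => ?_
  rw [cls_of_mem p (hmem x x.2), map_zsmul, Int.cast_smul_eq_zsmul]

/-- If `s` contains an element `x₀` of `A` with coefficient `±1` then the rank of `A ∪ J` drops. -/
lemma rank_lt (p : ℕ) [Fact p.Prime] (I : Finset Γ) [DecidableEq Γ] (A J s : Finset Γ) (hs : s ⊆ I)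
    (hsAJ : s ⊆ A ∪ J) (ξ : Γ → ℤ) (hξ : ∀ x ∈ s, ξ x = -1 ∨ ξ x = 0 ∨ ξ x = 1)
    (h : ∑ x ∈ s, ξ x • x = 0) (x₀ : Γ) (hx₀ : x₀ ∈ s) (hx₀A : x₀ ∈ A) (hx₀J : x₀ ∉ J) (hne : ξ x₀ ≠ 0) :
    (Module.finrank (ZMod p) (Submodule.span (ZMod p) (cls p I '' ((A ∪ J : Finset Γ) : Set Γ))) : ℤ) -
      Module.finrank (ZMod p) (Submodule.span (ZMod p) (cls p I '' (J : Set Γ))) < A.card := by
  have hrel := relation p I s hs ξ h
  have hrk := isRank_finrank (ZMod p) (cls p I)
  -- `cls x₀` lies in the span of the others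
  have hmem : cls p I x₀ ∈ Submodule.span (ZMod p) (cls p I '' ((A.erase x₀ ∪ J : Finset Γ) : Set Γ)) := by
    rw [← add_sum_erase s _ hx₀] at hrel
    have h1 : (ξ x₀ : ZMod p) • cls p I x₀ = -∑ x ∈ s.erase x₀, (ξ x : ZMod p) • cls p I x :=
      eq_neg_of_add_eq_zero_left hrel
    have h2 : (ξ x₀ : ZMod p) • cls p I x₀ ∈
        Submodule.span (ZMod p) (cls p I '' ((A.erase x₀ ∪ J : Finset Γ) : Set Γ)) := by
      rw [h1]
      refine Submodule.neg_mem _ (Submodule.sum_mem _ fun x hx => Submodule.smul_mem _ _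
        (Submodule.subset_span ⟨x, ?_, rfl⟩))
      have hxs := mem_of_mem_erase hx
      have hxne := ne_of_mem_erase hx
      rcases mem_union.1 (hsAJ hxs) with hA | hJ
      · simp [hxne, hA]
      · simp [hJ]
    have hunit : (ξ x₀ : ZMod p) * (ξ x₀ : ZMod p) = 1 := by
      rcases hξ x₀ hx₀ with h | h | h
      · rw [h]; norm_num
      · exact absurd h hne
      · rw [h]; norm_num
    have h3 := Submodule.smul_mem _ (ξ x₀ : ZMod p) h2
    rwa [smul_smul, hunit, one_smul] at h3
  have hspan : Submodule.span (ZMod p) (cls p I '' ((A ∪ J : Finset Γ) : Set Γ)) =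
      Submodule.span (ZMod p) (cls p I '' ((A.erase x₀ ∪ J : Finset Γ) : Set Γ)) := by
    apply le_antisymm
    · rw [Submodule.span_le]
      rintro _ ⟨x, hx, rfl⟩
      by_cases hxx : x = x₀
      · subst hxx; exact hmem
      · refine Submodule.subset_span ⟨x, ?_, rfl⟩
        have hx' : x ∈ A ∪ J := hx
        rcases mem_union.1 hx' with hA | hJ
        · simp [hxx, hA]
        · simp [hJ]
    · refine Submodule.span_mono (Set.image_mono ?_)
      have : A.erase x₀ ∪ J ⊆ A ∪ J := union_subset_union_left (erase_subset _ _)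
      exact_mod_cast this
  have h4 := hrk.union_le (A.erase x₀) J
  have h5 : (A.erase x₀).card < A.card := card_erase_lt_of_mem hx₀A
  rw [hspan]
  have h6 : ((A.erase x₀).card : ℤ) < A.card := by exact_mod_cast h5
  linarith

end Group

end Pool.Agent.K7.H85.Sidon
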