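import Mathlib
import Pool.Agent.K7.H85.Sidon.Groups

set_option autoImplicit false

/-!
# Sets with `|J| ≤ C log |⟨J⟩|` in groups of bounded exponent are finite unions of quasi-independent sets
-/

namespace Pool.Agent.K7.H85.Sidon

open Finset

lemma quo_card_le (p q : ℕ) (H : Type*) [AddCommGroup H] [Finite H] :
    Nat.card (quo q (pmul p H)) ≤ Nat.card (quo q H) := by
  let f : H →+ pmul p H := (nsmulAddMonoidHom p : H →+ H).rangeRestrict
  have hf : Function.Surjective f := AddMonoidHom.rangeRestrict_surjective _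
  have hle : pmul q H ≤ (pmul q (pmul p H)).comap f := by
    rintro _ ⟨x, rfl⟩
    exact ⟨f x, by simp [map_nsmul]⟩
  refine Nat.card_le_card_of_surjective (QuotientAddGroup.map (pmul q H) (pmul q (pmul p H)) f hle) ?_
  intro y
  obtain ⟨z, rfl⟩ := QuotientAddGroup.mk'_surjective _ y
  obtain ⟨x, rfl⟩ := hf z
  exact ⟨QuotientAddGroup.mk x, rfl⟩

lemma card_le_prod (f : ℕ → ℕ) : ∀ (L : List ℕ) (H : Type*) [AddCommGroup H] [Finite H],
    (∀ x : H, L.prod • x = 0) → (∀ q ∈ L, Nat.card (quo q H) ≤ f q) → Nat.card H ≤ (L.map f).prod := by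
  intro L
  induction L with
  | nil =>
    intro H _ _ h _
    have : Subsingleton H := ⟨fun x y => by
      have hx := h x
      have hy := h y
      simp at hx hy
      rw [hx, hy]⟩
    simp
  | cons p L ih =>
    intro H _ _ h hq
    have h1 : Nat.card H = Nat.card (quo p H) * Nat.card (pmul p H) :=
      AddSubgroup.card_eq_card_quotient_mul_card_addSubgroup _
    have h2 : Nat.card (pmul p H) ≤ (L.map f).prod := by
      refine ih (pmul p H) ?_ fun q hqL => (quo_card_le p q H).trans (hq q (by simp [hqL]))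
      rintro ⟨_, x, rfl⟩
      apply Subtype.ext
      have := h x
      rw [List.prod_cons, mul_comm, mul_smul] at this
      simpa using this
    rw [h1, List.map_cons, List.prod_cons]
    exact Nat.mul_le_mul (hq p (by simp)) h2

lemma card_quo (p : ℕ) [Fact p.Prime] (H : Type*) [AddCommGroup H] [Finite H] :
    Nat.card (quo p H) = p ^ Module.finrank (ZMod p) (quo p H) := by
  have := Module.natCard_eq_pow_finrank (K := ZMod p) (V := quo p H)
  rw [this, Nat.card_zmod]

section

variable {Γ : Type*} [AddCommGroup Γ]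

lemma span_cls (p : ℕ) [Fact p.Prime] (J : Finset Γ) :
    Submodule.span (ZMod p) (cls p J '' (J : Set Γ)) = ⊤ := by
  rw [eq_top_iff]
  intro y _
  obtain ⟨⟨x, hx⟩, rfl⟩ := QuotientAddGroup.mk'_surjective _ y
  have key : ∀ x (hx : x ∈ gen J), QuotientAddGroup.mk' (pmul p (gen J)) ⟨x, hx⟩ ∈
      Submodule.span (ZMod p) (cls p J '' (J : Set Γ)) := by
    intro x hx
    induction hx using AddSubgroup.closure_induction with
    | mem x hx => exact Submodule.subset_span ⟨x, hx, cls_of_mem p (AddSubgroup.subset_closure hx)⟩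
    | zero =>
      have : (⟨0, (gen J).zero_mem⟩ : gen J) = 0 := rfl
      rw [this, map_zero]
      exact Submodule.zero_mem _
    | add x y hx hy ihx ihy =>
      have : (⟨x + y, (gen J).add_mem hx hy⟩ : gen J) = ⟨x, hx⟩ + ⟨y, hy⟩ := rfl
      rw [this, map_add]
      exact Submodule.add_mem _ ihx ihy
    | neg x hx ih =>
      have : (⟨-x, (gen J).neg_mem hx⟩ : gen J) = -⟨x, hx⟩ := rfl
      rw [this, map_neg]
      exact Submodule.neg_mem _ ih
  exact key x hx

lemma finite_gen (m : ℕ) (hm : 0 < m) (hΓ : ∀ x : Γ, m • x = 0) (J : Finset Γ) : Finite (gen J) := by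
  have h1 : AddGroup.FG (gen J) := AddGroup.closure_finite_fg _
  refine AddCommGroup.finite_of_fg_isAddTorsion (gen J) ?_
  intro x
  rw [isOfFinAddOrder_iff_nsmul_eq_zero]
  exact ⟨m, hm, Subtype.ext (by simpa using hΓ x)⟩

lemma log_card_le (m : ℕ) (hm : 2 ≤ m) (hΓ : ∀ x : Γ, m • x = 0) (J : Finset Γ) :
    Real.log (Nat.card (gen J)) ≤ (m.primeFactorsList.length * Real.log m) *
      ∑ p ∈ m.primeFactors, (Module.finrank (ZMod p) (quo p (gen J)) : ℝ) := by
  have hfin := finite_gen m (by omega) hΓ J
  have hcard : Nat.card (gen J) ≤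
      (m.primeFactorsList.map (fun p => Nat.card (quo p (gen J)))).prod := by
    refine card_le_prod _ _ _ ?_ (fun _ _ => le_rfl)
    intro x
    rw [Nat.prod_primeFactorsList (by omega)]
    exact Subtype.ext (by simpa using hΓ x)
  have hpos : 0 < Nat.card (gen J) := Nat.card_pos
  have h1 : Real.log (Nat.card (gen J)) ≤
      Real.log ((m.primeFactorsList.map (fun p => Nat.card (quo p (gen J)))).prod : ℕ) :=
    Real.log_le_log (by exact_mod_cast hpos) (by exact_mod_cast hcard)
  refine h1.trans ?_
  set S : ℝ := ∑ p ∈ m.primeFactors, (Module.finrank (ZMod p) (quo p (gen J)) : ℝ) with hS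
  have key : ∀ L : List ℕ, (∀ p ∈ L, p ∈ m.primeFactors) →
      Real.log ((L.map (fun p => Nat.card (quo p (gen J)))).prod : ℕ) ≤ (L.length * Real.log m) * S := by
    intro L
    induction L with
    | nil => intro _; simp
    | cons p L ih =>
      intro hL
      have hp := hL p (by simp)
      have hprime : Fact p.Prime := ⟨Nat.prime_of_mem_primeFactors hp⟩
      have hpm : p ≤ m := Nat.le_of_dvd (by omega) (Nat.dvd_of_mem_primeFactors hp)
      have hprodpos : 0 < (L.map (fun p => Nat.card (quo p (gen J)))).prod := by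
        refine List.prod_pos fun a ha => ?_
        obtain ⟨q, -, rfl⟩ := List.mem_map.1 ha
        exact Nat.card_pos
      rw [List.map_cons, List.prod_cons, Nat.cast_mul, Real.log_mul (by
        have : 0 < Nat.card (quo p (gen J)) := Nat.card_pos
        positivity) (by positivity)]
      have h2 := ih fun q hq => hL q (by simp [hq])
      have h3 : Real.log (Nat.card (quo p (gen J)) : ℕ) ≤ Real.log m * S := by
        rw [card_quo p, Nat.cast_pow, Real.log_pow]
        have h4 : Real.log p ≤ Real.log m :=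
          Real.log_le_log (by exact_mod_cast hprime.out.pos) (by exact_mod_cast hpm)
        have h5 : (Module.finrank (ZMod p) (quo p (gen J)) : ℝ) ≤ S :=
          single_le_sum (f := fun p => (Module.finrank (ZMod p) (quo p (gen J)) : ℝ))
            (fun _ _ => by positivity) hp
        have h6 : 0 ≤ Real.log p := Real.log_nonneg (by exact_mod_cast hprime.out.one_lt.le)
        have h7 : 0 ≤ S := (Nat.cast_nonneg _).trans h5
        calc (Module.finrank (ZMod p) (quo p (gen J)) : ℝ) * Real.log p ≤ S * Real.log m := by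
              gcongr
          _ = Real.log m * S := by ring
      rw [List.length_cons, Nat.cast_succ]
      have h8 : ((L.length : ℝ) + 1) * Real.log m * S = Real.log m * S + L.length * Real.log m * S := by
        ring
      rw [h8]
      exact add_le_add h3 h2
  exact key _ fun p hp => by
    rw [Nat.mem_primeFactors]
    exact ⟨Nat.prime_of_mem_primeFactorsList hp, Nat.dvd_of_mem_primeFactorsList hp, by omega⟩

/-- **Finite unions of quasi-independent sets.** -/
theorem finite_union (m : ℕ) (hm : 2 ≤ m) (hΓ : ∀ x : Γ, m • x = 0) (Λ : Set Γ) (C : ℝ)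
    (hC : ∀ J : Finset Γ, ↑J ⊆ Λ → (J.card : ℝ) ≤ C * Real.log (Nat.card (gen J))) :
    ∃ (K : ℕ) (P : Fin K → Set Γ), Λ = ⋃ i, P i ∧ ∀ i, QuasiIndependent (P i) := by
  classical
  obtain ⟨N, hN⟩ := exists_nat_ge (max C 0 * (m.primeFactorsList.length * Real.log m))
  have hne : m.primeFactors.Nonempty := Nat.nonempty_primeFactors.2 (by omega)
  obtain ⟨p₀, hp₀⟩ := hne
  have hκ : Nonempty (m.primeFactors × Fin (N + 1)) := ⟨(⟨p₀, hp₀⟩, 0)⟩
  have hprime : ∀ c : m.primeFactors × Fin (N + 1), Fact (c.1 : ℕ).Prime :=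
    fun c => ⟨Nat.prime_of_mem_primeFactors c.1.2⟩
  let R : Finset Γ → (m.primeFactors × Fin (N + 1)) → Finset Γ → ℤ := fun I c A =>
    (Module.finrank (ZMod c.1) (Submodule.span (ZMod c.1) (cls c.1 I '' (A : Set Γ))) : ℤ)
  have hR : ∀ I c, IsRank (R I c) := fun I c => by
    have := hprime c
    exact isRank_finrank (ZMod c.1) (cls c.1 I)
  have hfinite : ∀ I : Finset Γ, ↑I ⊆ Λ → ∃ χ : Γ → m.primeFactors × Fin (N + 1),
      ∀ c, QuasiIndependent ((I.filter (fun x => χ x = c) : Finset Γ) : Set Γ) := by
    intro I hIΛ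
    refine recursive R (fun B => QuasiIndependent (B : Set Γ)) hR ?_ ?_ I.card I rfl ?_
    · intro s ξ hs _ _ x hx
      exact absurd (hs hx) (by simp)
    · intro I J A B c hJI hAI hBJ hB hcard s ξ hs hξ hsum
      have := hprime c
      have hsAB : s ⊆ A ∪ B := by
        intro x hx
        have := hs hx
        exact_mod_cast this
      have hBI := hBJ.trans hJI
      have hAI' : A ⊆ I := hAI.trans sdiff_subset
      have hsI : s ⊆ I := hsAB.trans (union_subset hAI' hBI)
      have hA0 : ∀ x ∈ s, x ∈ A → ξ x = 0 := by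
        intro x hx hxA
        by_contra hne
        have h1 := rank_lt (c.1 : ℕ) I A J s hsI (hsAB.trans (union_subset_union_right hBJ)) ξ hξ hsum x
          hx hxA (mem_sdiff.1 (hAI hxA)).2 hne
        exact absurd hcard (not_le.2 h1)
      intro x hx
      rcases mem_union.1 (hsAB hx) with hxA | hxB
      · exact hA0 x hx hxA
      · have hsum' : ∑ x ∈ s.filter (fun x => x ∈ B), ξ x • x = 0 := by
          rw [← hsum]
          refine sum_subset (filter_subset _ _) fun y hy hyn => ?_
          have hyA : y ∈ A := by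
            rcases mem_union.1 (hsAB hy) with h | h
            · exact h
            · exact absurd (mem_filter.2 ⟨hy, h⟩) hyn
          rw [hA0 y hy hyA, zero_smul]
        exact hB (s.filter (fun x => x ∈ B)) ξ (fun y hy => (mem_filter.1 hy).2)
          (fun y hy => hξ y (mem_filter.1 hy).1) hsum' x (mem_filter.2 ⟨hx, hxB⟩)
    · intro J hJ
      have hJΛ : ↑J ⊆ Λ := fun x hx => hIΛ (hJ hx)
      have hfin := finite_gen m (by omega) hΓ J
      have h1 := hC J hJΛ
      have h2 := log_card_le m hm hΓ J
      have hlog : 0 ≤ Real.log (Nat.card (gen J)) := Real.log_natCast_nonneg _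
      set S : ℝ := ∑ p ∈ m.primeFactors, (Module.finrank (ZMod p) (quo p (gen J)) : ℝ) with hS
      have hS0 : 0 ≤ S := sum_nonneg fun _ _ => by positivity
      have h3 : (J.card : ℝ) ≤ N * S := by
        calc (J.card : ℝ) ≤ C * Real.log (Nat.card (gen J)) := h1
          _ ≤ max C 0 * Real.log (Nat.card (gen J)) := by gcongr; exact le_max_left _ _
          _ ≤ max C 0 * ((m.primeFactorsList.length * Real.log m) * S) := by
              have : 0 ≤ max C 0 := le_max_right _ _
              gcongr
          _ = (max C 0 * (m.primeFactorsList.length * Real.log m)) * S := by ring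
          _ ≤ N * S := by gcongr
      have h4 : ((∑ c, R J c J : ℤ) : ℝ) = (N + 1) * S := by
        have h5 : ∀ c : m.primeFactors × Fin (N + 1), R J c J =
            (Module.finrank (ZMod c.1) (quo c.1 (gen J)) : ℤ) := by
          intro c
          have := hprime c
          simp only [R]
          rw [span_cls, finrank_top]
        rw [Finset.sum_congr rfl fun c _ => h5 c, Fintype.sum_prod_type]
        have h7 : ∀ x : m.primeFactors, (∑ _y : Fin (N + 1),
            (Module.finrank (ZMod (x : ℕ)) (quo (x : ℕ) (gen J)) : ℤ)) =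
            (N + 1 : ℤ) * (Module.finrank (ZMod (x : ℕ)) (quo (x : ℕ) (gen J)) : ℤ) := by
          intro x
          rw [Finset.sum_const, Finset.card_univ, Fintype.card_fin, nsmul_eq_mul]
          push_cast
          rfl
        rw [Finset.sum_congr rfl fun x _ => h7 x, ← mul_sum]
        push_cast
        rw [hS, ← Finset.sum_coe_sort m.primeFactors]
      have h6 : (J.card : ℝ) ≤ ((∑ c, R J c J : ℤ) : ℝ) := by
        rw [h4]; linarith
      exact_mod_cast h6
  -- compactness
  have hch : ∀ I : Finset Γ, ∃ χ : Γ → m.primeFactors × Fin (N + 1), ↑I ⊆ Λ →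
      ∀ c, QuasiIndependent ((I.filter (fun x => χ x = c) : Finset Γ) : Set Γ) := by
    intro I
    by_cases hI : ↑I ⊆ Λ
    · obtain ⟨χ, hχ⟩ := hfinite I hI
      exact ⟨χ, fun _ => hχ⟩
    · exact ⟨fun _ => Classical.arbitrary _, fun h => absurd h hI⟩
  choose g hg using hch
  obtain ⟨χ, hχ⟩ := Finset.rado_selection (fun I : Finset Γ => g (I.filter (fun x => x ∈ Λ)))
  let e := Fintype.equivFin (m.primeFactors × Fin (N + 1))
  refine ⟨Fintype.card (m.primeFactors × Fin (N + 1)), fun i => {x | x ∈ Λ ∧ χ x = e.symm i}, ?_, ?_⟩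
  · ext x
    simp only [Set.mem_iUnion, Set.mem_ofPred_eq]
    exact ⟨fun hx => ⟨e (χ x), hx, by simp⟩, fun ⟨_, h, _⟩ => h⟩
  · intro i s ξ hs hξ hsum
    obtain ⟨t, hst, ht⟩ := hχ s
    have h1 := hg (t.filter (fun x => x ∈ Λ)) (fun x hx => (mem_filter.1 hx).2) (e.symm i)
    refine h1 s ξ ?_ hξ hsum
    intro x hx
    have hx' : x ∈ s := hx
    have h2 := hs hx'
    simp only [coe_filter, mem_filter, Set.mem_ofPred_eq]
    exact ⟨⟨hst hx', h2.1⟩, by rw [← ht x hx']; exact h2.2⟩

end

end Pool.Agent.K7.H85.Sidon
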