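import Mathlib
import Pool.Agent.K7.H85.Sidon.FiniteUnion

set_option autoImplicit false

/-!
# Characters of `(ℤ/m)^ℕ`, the `ψ₂` norm, and subgaussian sets of characters
-/

namespace Pool.Agent.K7.H85.Sidon

open MeasureTheory Finset

variable (m : ℕ) [NeZero m]

/-- The normalised Haar measure on the compact group `(ℤ/m)^ℕ`. -/
noncomputable def haar : Measure (ℕ → ZMod m) := Measure.addHaarMeasure ⊤

/-- The character `γ_n(t) = e^{2π i ∑ t_k n_k / m}` of `(ℤ/m)^ℕ`, for a finitely supported `n`. -/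
noncomputable def chi (n : ℕ →₀ ZMod m) (t : ℕ → ZMod m) : ℂ :=
  ZMod.stdAddChar (n.sum fun k a => t k * a)

/-- The `ψ₂` norm `inf {c > 0 : ∫ exp(|f|²/c²) ≤ e}`. -/
noncomputable def psi2 (f : (ℕ → ZMod m) → ℂ) : ℝ :=
  sInf {c : ℝ | 0 < c ∧
    ∫⁻ t, ENNReal.ofReal (Real.exp (‖f t‖ ^ 2 / c ^ 2)) ∂(haar m) ≤ ENNReal.ofReal (Real.exp 1)}

/-- Subgaussian sets of characters of `(ℤ/m)^ℕ`. -/
def Subgaussian (Λ : Set (ℕ →₀ ZMod m)) : Prop :=
  ∃ C : ℝ, ∀ a : (ℕ →₀ ZMod m) →₀ ℂ, ↑a.support ⊆ Λ →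
    psi2 m (fun t => a.sum fun n z => z * chi m n t) ≤ C * Real.sqrt (a.sum fun _ z => ‖z‖ ^ 2)

instance : IsProbabilityMeasure (haar m) := ⟨by
  have := Measure.addHaarMeasure_self (K₀ := (⊤ : TopologicalSpace.PositiveCompacts (ℕ → ZMod m)))
  simpa [haar] using this⟩

instance : (haar m).IsAddLeftInvariant := by unfold haar; infer_instance

variable {m}

lemma chi_add (n n' : ℕ →₀ ZMod m) (t : ℕ → ZMod m) : chi m (n + n') t = chi m n t * chi m n' t := by
  simp only [chi]
  rw [Finsupp.sum_add_index' (by simp) (by intro k a b; ring), AddChar.map_add_eq_mul]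

lemma chi_zero (t : ℕ → ZMod m) : chi m 0 t = 1 := by simp [chi]

lemma chi_ne_zero (n : ℕ →₀ ZMod m) (t : ℕ → ZMod m) : chi m n t ≠ 0 := by
  intro h
  have := chi_add n (-n) t
  rw [add_neg_cancel, chi_zero, h, zero_mul] at this
  exact one_ne_zero this

lemma norm_chi (n : ℕ →₀ ZMod m) (t : ℕ → ZMod m) : ‖chi m n t‖ = 1 := by
  simp only [chi, ZMod.stdAddChar_apply]
  exact Circle.norm_coe _

lemma chi_neg (n : ℕ →₀ ZMod m) (t : ℕ → ZMod m) : chi m (-n) t = (starRingEnd ℂ) (chi m n t) := by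
  have h := chi_add n (-n) t
  rw [add_neg_cancel, chi_zero] at h
  have h2 : chi m n t * (starRingEnd ℂ) (chi m n t) = 1 := by
    rw [Complex.mul_conj, Complex.normSq_eq_norm_sq, norm_chi]; norm_num
  have h3 := chi_ne_zero n t
  exact mul_left_cancel₀ h3 (h.symm.trans h2.symm)

lemma continuous_chi (n : ℕ →₀ ZMod m) : Continuous (chi m n) := by
  unfold chi
  simp only [Finsupp.sum]
  have h1 : Continuous (fun x : ZMod m => (ZMod.stdAddChar x : ℂ)) := continuous_of_discreteTopology
  refine h1.comp ?_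
  fun_prop

lemma chi_sum {ι : Type*} (s : Finset ι) (f : ι → (ℕ →₀ ZMod m)) (t : ℕ → ZMod m) :
    chi m (∑ i ∈ s, f i) t = ∏ i ∈ s, chi m (f i) t := by
  classical
  induction s using Finset.induction_on with
  | empty => simp [chi_zero]
  | insert i s hi ih => rw [sum_insert hi, prod_insert hi, chi_add, ih]

lemma integrable_chi (n : ℕ →₀ ZMod m) : Integrable (chi m n) (haar m) := by
  refine Integrable.of_bound (continuous_chi n).aestronglyMeasurable 1 ?_
  exact Filter.Eventually.of_forall fun t => (norm_chi n t).le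

lemma integral_chi (n : ℕ →₀ ZMod m) (hn : n ≠ 0) : ∫ t, chi m n t ∂(haar m) = 0 := by
  classical
  obtain ⟨k, hk⟩ : ∃ k, n k ≠ 0 := by
    by_contra hcon
    push Not at hcon
    exact hn (Finsupp.ext hcon)
  let s : ℕ → ZMod m := Pi.single k 1
  have h1 : ∀ t, chi m n (s + t) = ZMod.stdAddChar (n k) * chi m n t := by
    intro t
    simp only [chi]
    rw [← AddChar.map_add_eq_mul]
    congr 1
    simp only [Finsupp.sum, Pi.add_apply, add_mul, sum_add_distrib]
    congr 1
    rw [Finset.sum_eq_single k]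
    · simp [s]
    · intro b _ hb
      simp [s, Pi.single_eq_of_ne hb]
    · intro h
      simp [Finsupp.notMem_support_iff.1 h]
  have h2 : ∫ t, chi m n (s + t) ∂(haar m) = ∫ t, chi m n t ∂(haar m) :=
    integral_add_left_eq_self (chi m n) s
  simp only [h1] at h2
  rw [integral_const_mul] at h2
  have h3 : (ZMod.stdAddChar (n k) : ℂ) ≠ 1 := by
    intro h
    apply hk
    have : (ZMod.stdAddChar (n k) : ℂ) = ZMod.stdAddChar (0 : ZMod m) := by
      rw [h, AddChar.map_zero_eq_one]
    exact ZMod.injective_stdAddChar this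
  have h4 : (ZMod.stdAddChar (n k) - 1 : ℂ) * ∫ t, chi m n t ∂(haar m) = 0 := by
    rw [sub_mul, h2, one_mul, sub_self]
  rcases mul_eq_zero.1 h4 with h | h
  · exact absurd (sub_eq_zero.1 h) h3
  · exact h

lemma integral_chi_zero : ∫ t, chi m 0 t ∂(haar m) = 1 := by
  simp [chi_zero]

/-- The annihilator of a finite subgroup has Haar measure at least one over the order. -/
lemma measure_annihilator (H : AddSubgroup (ℕ →₀ ZMod m)) [Finite H] :
    ENNReal.ofReal (1 / Nat.card H) ≤ (haar m) {t | ∀ h ∈ H, chi m h t = 1} := by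
  classical
  have := Fintype.ofFinite H
  set Z : Set (ℕ → ZMod m) := {t | ∀ h ∈ H, chi m h t = 1} with hZ
  have hZm : MeasurableSet Z := by
    have : Z = ⋂ h : H, {t | chi m (h : ℕ →₀ ZMod m) t = 1} := by
      ext t; simp [hZ]
    rw [this]
    exact (isClosed_iInter fun h => isClosed_eq (continuous_chi _) continuous_const).measurableSet
  have hsum : ∀ t, ∑ h : H, chi m (h : ℕ →₀ ZMod m) t =
      Z.indicator (fun _ => (Fintype.card H : ℂ)) t := by
    intro t
    by_cases ht : t ∈ Z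
    · rw [Set.indicator_of_mem ht]
      have h0 : ∀ h : H, chi m (h : ℕ →₀ ZMod m) t = 1 := fun h => ht _ h.2
      rw [Finset.sum_congr rfl fun h _ => h0 h]
      simp
    · rw [Set.indicator_of_notMem ht]
      obtain ⟨h₀, hh₀, hne⟩ : ∃ h₀ ∈ H, chi m h₀ t ≠ 1 := by
        by_contra hcon
        push Not at hcon
        exact ht hcon
      have h1 : ∑ h : H, chi m (h : ℕ →₀ ZMod m) t =
          ∑ h : H, chi m ((h + ⟨h₀, hh₀⟩ : H) : ℕ →₀ ZMod m) t :=
        (Equiv.sum_comp (Equiv.addRight (⟨h₀, hh₀⟩ : H))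
          (fun h : H => chi m (h : ℕ →₀ ZMod m) t)).symm
      have h2 : ∑ h : H, chi m ((h + ⟨h₀, hh₀⟩ : H) : ℕ →₀ ZMod m) t =
          (∑ h : H, chi m (h : ℕ →₀ ZMod m) t) * chi m h₀ t := by
        rw [sum_mul]
        refine sum_congr rfl fun h _ => ?_
        rw [AddSubgroup.coe_add, chi_add]
      have h3 : (∑ h : H, chi m (h : ℕ →₀ ZMod m) t) * (chi m h₀ t - 1) = 0 := by
        rw [mul_sub, mul_one, ← h2, ← h1, sub_self]
      rcases mul_eq_zero.1 h3 with h | h
      · exact h
      · exact absurd (sub_eq_zero.1 h) hne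
  have hint : ∫ t, ∑ h : H, chi m (h : ℕ →₀ ZMod m) t ∂(haar m) = 1 := by
    rw [integral_finsetSum _ fun h _ => integrable_chi _]
    rw [Finset.sum_eq_single (0 : H)]
    · exact integral_chi_zero
    · intro h _ hh
      exact integral_chi _ (by simpa using hh)
    · simp
  simp only [hsum] at hint
  rw [integral_indicator hZm, setIntegral_const] at hint
  have hcard : (0 : ℝ) < Fintype.card H := by
    have : 0 < Fintype.card H := Fintype.card_pos
    exact_mod_cast this
  have h4 : ((haar m).real Z) * (Fintype.card H : ℝ) = 1 := by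
    have := congrArg Complex.re hint
    simpa using this
  have h5 : (haar m).real Z = 1 / Fintype.card H := by
    field_simp
    linarith
  rw [Nat.card_eq_fintype_card, ← h5]
  rw [ofReal_measureReal]

end Pool.Agent.K7.H85.Sidon
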