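import Mathlib
import Pool.Agent.K7.H85.Sidon.Chars

set_option autoImplicit false

namespace Pool.Agent.K7.H85.Sidon

open MeasureTheory Finset

variable {m : ℕ} [NeZero m]

lemma norm_sum_chi_le (J : Finset (ℕ →₀ ZMod m)) (t : ℕ → ZMod m) :
    ‖∑ n ∈ J, chi m n t‖ ≤ J.card := by
  refine (norm_sum_le _ _).trans ?_
  rw [Finset.sum_congr rfl fun n _ => norm_chi n t]
  simp

/-- If `c` is admissible in the definition of the `ψ₂` norm of `∑_{n ∈ J} γ_n` then
`|J|² ≤ c² (1 + log |⟨J⟩|)`. -/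
lemma key_bound (J : Finset (ℕ →₀ ZMod m)) (c : ℝ) (hc : 0 < c)
    (h : ∫⁻ t, ENNReal.ofReal (Real.exp (‖∑ n ∈ J, chi m n t‖ ^ 2 / c ^ 2)) ∂(haar m) ≤
      ENNReal.ofReal (Real.exp 1)) :
    (J.card : ℝ) ^ 2 ≤ c ^ 2 * (1 + Real.log (Nat.card (gen J))) := by
  have hfin : Finite (gen J) := finite_gen m (Nat.pos_of_ne_zero (NeZero.ne m)) (fun x => by
    ext k; simp) J
  have hpos : 0 < Nat.card (gen J) := Nat.card_pos
  have hposR : (0 : ℝ) < Nat.card (gen J) := by exact_mod_cast hpos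
  set Z : Set (ℕ → ZMod m) := {t | ∀ h ∈ gen J, chi m h t = 1} with hZ
  have hZm : MeasurableSet Z := by
    have : Z = ⋂ h : gen J, {t | chi m (h : ℕ →₀ ZMod m) t = 1} := by
      ext t; simp [hZ]
    rw [this]
    exact (isClosed_iInter fun h => isClosed_eq (continuous_chi _) continuous_const).measurableSet
  have h1 := measure_annihilator (gen J)
  have h2 : ENNReal.ofReal (Real.exp ((J.card : ℝ) ^ 2 / c ^ 2)) * (haar m) Z ≤
      ∫⁻ t, ENNReal.ofReal (Real.exp (‖∑ n ∈ J, chi m n t‖ ^ 2 / c ^ 2)) ∂(haar m) := by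
    calc ENNReal.ofReal (Real.exp ((J.card : ℝ) ^ 2 / c ^ 2)) * (haar m) Z
        = ∫⁻ _ in Z, ENNReal.ofReal (Real.exp ((J.card : ℝ) ^ 2 / c ^ 2)) ∂(haar m) := by
          rw [setLIntegral_const]
      _ = ∫⁻ t in Z, ENNReal.ofReal (Real.exp (‖∑ n ∈ J, chi m n t‖ ^ 2 / c ^ 2)) ∂(haar m) := by
          refine setLIntegral_congr_fun hZm fun t ht => ?_
          have : ∑ n ∈ J, chi m n t = J.card := by
            rw [Finset.sum_congr rfl fun n hn => ht n (AddSubgroup.subset_closure hn)]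
            simp
          simp only [this]
          simp
      _ ≤ _ := setLIntegral_le_lintegral _ _
  have h3 : ENNReal.ofReal (Real.exp ((J.card : ℝ) ^ 2 / c ^ 2)) *
      ENNReal.ofReal (1 / Nat.card (gen J)) ≤ ENNReal.ofReal (Real.exp 1) :=
    (mul_le_mul_right h1 _).trans (h2.trans h)
  rw [← ENNReal.ofReal_mul (Real.exp_pos _).le, ENNReal.ofReal_le_ofReal_iff (Real.exp_pos _).le] at h3
  have h4 : Real.exp ((J.card : ℝ) ^ 2 / c ^ 2) ≤ Real.exp 1 * Nat.card (gen J) := by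
    rw [mul_one_div, div_le_iff₀ hposR] at h3
    exact h3
  have h5 : (J.card : ℝ) ^ 2 / c ^ 2 ≤ 1 + Real.log (Nat.card (gen J)) := by
    have := Real.log_le_log (Real.exp_pos _) h4
    rwa [Real.log_exp, Real.log_mul (Real.exp_pos _).ne' hposR.ne', Real.log_exp] at this
  rw [div_le_iff₀ (by positivity)] at h5
  linarith

theorem counting (Λ : Set (ℕ →₀ ZMod m)) (h0 : (0 : ℕ →₀ ZMod m) ∉ Λ) (h : Subgaussian m Λ) :
    ∃ C : ℝ, ∀ J : Finset (ℕ →₀ ZMod m), ↑J ⊆ Λ →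
      (J.card : ℝ) ≤ C * Real.log (Nat.card (gen J)) := by
  classical
  obtain ⟨C, hC⟩ := h
  refine ⟨3 * (C + 1) ^ 2, fun J hJ => ?_⟩
  rcases J.eq_empty_or_nonempty with rfl | hne
  · simp only [card_empty, Nat.cast_zero]
    have : 0 ≤ Real.log (Nat.card (gen (∅ : Finset (ℕ →₀ ZMod m)))) := Real.log_natCast_nonneg _
    positivity
  have hcardpos : (0 : ℝ) < J.card := by exact_mod_cast hne.card_pos
  have hfin : Finite (gen J) := finite_gen m (Nat.pos_of_ne_zero (NeZero.ne m)) (fun x => by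
    ext k; simp) J
  -- `⟨J⟩` has at least two elements
  have h2 : 2 ≤ Nat.card (gen J) := by
    obtain ⟨x, hx⟩ := hne
    have hx0 : x ≠ 0 := fun h => h0 (h ▸ hJ hx)
    have : Nontrivial (gen J) := ⟨⟨⟨x, AddSubgroup.subset_closure hx⟩, 0, fun h => hx0 (by
      simpa using congrArg Subtype.val h)⟩⟩
    exact Finite.one_lt_card
  let a : (ℕ →₀ ZMod m) →₀ ℂ := Finsupp.onFinset J (fun n => if n ∈ J then 1 else 0) (by
    intro n hn
    by_contra hcon
    simp [hcon] at hn)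
  have hsupp : a.support = J := by
    ext n
    simp [a]
  have hval : ∀ n ∈ J, a n = 1 := by
    intro n hn
    simp [a, hn]
  have h3 := hC a (by rw [hsupp]; exact hJ)
  have h4 : (fun t => a.sum fun n z => z * chi m n t) = fun t => ∑ n ∈ J, chi m n t := by
    funext t
    rw [Finsupp.sum, hsupp]
    refine sum_congr rfl fun n hn => ?_
    rw [hval n hn, one_mul]
  have h5 : (a.sum fun _ z => ‖z‖ ^ 2) = J.card := by
    rw [Finsupp.sum, hsupp, Finset.sum_congr rfl fun n hn => by rw [hval n hn]]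
    simp
  rw [h4, h5] at h3
  -- an admissible `c`
  have hset : {c : ℝ | 0 < c ∧ ∫⁻ t, ENNReal.ofReal (Real.exp (‖∑ n ∈ J, chi m n t‖ ^ 2 / c ^ 2))
      ∂(haar m) ≤ ENNReal.ofReal (Real.exp 1)}.Nonempty := by
    refine ⟨J.card, hcardpos, ?_⟩
    calc ∫⁻ t, ENNReal.ofReal (Real.exp (‖∑ n ∈ J, chi m n t‖ ^ 2 / (J.card : ℝ) ^ 2)) ∂(haar m)
        ≤ ∫⁻ _, ENNReal.ofReal (Real.exp 1) ∂(haar m) := by
          refine lintegral_mono fun t => ENNReal.ofReal_le_ofReal (Real.exp_le_exp.2 ?_)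
          rw [div_le_one (by positivity)]
          have := norm_sum_chi_le J t
          gcongr
      _ = ENNReal.ofReal (Real.exp 1) := by simp
  have hsq : 0 < Real.sqrt J.card := Real.sqrt_pos.2 hcardpos
  have h6 : psi2 m (fun t => ∑ n ∈ J, chi m n t) < (C + 1) * Real.sqrt J.card := by linarith
  obtain ⟨c, ⟨hc0, hc1⟩, hc2⟩ := exists_lt_of_csInf_lt hset h6
  have h7 := key_bound J c hc0 hc1
  have h8 : c ^ 2 ≤ (C + 1) ^ 2 * J.card := by
    have : c ^ 2 ≤ ((C + 1) * Real.sqrt J.card) ^ 2 := by gcongr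
    rwa [mul_pow, Real.sq_sqrt hcardpos.le] at this
  set L := Real.log (Nat.card (gen J)) with hL
  have h9 : 1 ≤ 2 * L := by
    have h10 : Real.log 2 ≤ L := Real.log_le_log (by norm_num) (by exact_mod_cast h2)
    have := Real.log_two_gt_d9
    linarith
  have h11 : (J.card : ℝ) ^ 2 ≤ ((C + 1) ^ 2 * J.card) * (3 * L) := by
    calc (J.card : ℝ) ^ 2 ≤ c ^ 2 * (1 + L) := h7
      _ ≤ ((C + 1) ^ 2 * J.card) * (3 * L) := by
          have : 0 ≤ 1 + L := by linarith
          have : 1 + L ≤ 3 * L := by linarith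
          gcongr
  have h12 : (J.card : ℝ) * J.card ≤ J.card * (3 * (C + 1) ^ 2 * L) := by nlinarith
  exact le_of_mul_le_mul_left h12 hcardpos

end Pool.Agent.K7.H85.Sidon
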