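import Mathlib
import Pool.Agent.K7.H85.Sidon.Chars

set_option autoImplicit false

namespace Pool.Agent.K7.H85.Sidon

open MeasureTheory Finset

/-- Convexity of the exponential function on `[-r, r]`. -/
lemma exp_le_cosh_add (r u : ℝ) (hr : 0 ≤ r) (hu : |u| ≤ r) :
    Real.exp u ≤ Real.cosh r + u / r * Real.sinh r := by
  rcases hr.eq_or_lt with rfl | hr
  · have : u = 0 := abs_eq_zero.1 (le_antisymm hu (abs_nonneg _))
    simp [this]
  · have h1 := abs_le.1 hu
    have ha : 0 ≤ (r - u) / (2 * r) := by apply div_nonneg <;> linarith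
    have hb : 0 ≤ (r + u) / (2 * r) := by apply div_nonneg <;> linarith
    have hab : (r - u) / (2 * r) + (r + u) / (2 * r) = 1 := by field_simp; ring
    have hconv := convexOn_exp.2 (Set.mem_univ (-r)) (Set.mem_univ r) ha hb hab
    have e1 : ((r - u) / (2 * r)) • (-r) + ((r + u) / (2 * r)) • r = u := by
      simp only [smul_eq_mul]; field_simp; ring
    rw [e1] at hconv
    refine hconv.trans (le_of_eq ?_)
    rw [Real.cosh_eq, Real.sinh_eq]
    simp only [smul_eq_mul]
    field_simp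
    ring

variable {m : ℕ} [NeZero m]

/-- Coefficients of the expansion of a Riesz product. -/
noncomputable def co (α : (ℕ →₀ ZMod m) → ℝ) (β : (ℕ →₀ ZMod m) → ℂ) (n : ℕ →₀ ZMod m) (ε : ℤ) : ℂ :=
  if ε = 0 then (α n : ℂ) else if ε = 1 then β n / 2 else (starRingEnd ℂ) (β n) / 2

lemma factor_eq (α : (ℕ →₀ ZMod m) → ℝ) (β : (ℕ →₀ ZMod m) → ℂ) (n : ℕ →₀ ZMod m) (t : ℕ → ZMod m) :
    ((α n + (β n * chi m n t).re : ℝ) : ℂ) =
      ∑ ε ∈ ({-1, 0, 1} : Finset ℤ), co α β n ε * chi m (ε • n) t := by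
  have h1 : ((β n * chi m n t).re : ℂ) =
      (β n * chi m n t + (starRingEnd ℂ) (β n * chi m n t)) / 2 := by
    rw [Complex.add_conj]; push_cast; ring
  rw [sum_insert (by decide), sum_insert (by decide), sum_singleton]
  simp only [co]
  rw [Complex.ofReal_add, h1, map_mul, neg_one_zsmul, chi_neg, zero_zsmul, chi_zero, one_zsmul]
  norm_num
  ring

lemma continuous_factor (α : (ℕ →₀ ZMod m) → ℝ) (β : (ℕ →₀ ZMod m) → ℂ) (n : ℕ →₀ ZMod m) :
    Continuous (fun t => α n + (β n * chi m n t).re) := by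
  have := continuous_chi n
  fun_prop

/-- **Riesz products** over quasi-independent sets. -/
lemma riesz (P : Set (ℕ →₀ ZMod m)) (hP : QuasiIndependent P) (s : Finset (ℕ →₀ ZMod m)) (hs : ↑s ⊆ P)
    (α : (ℕ →₀ ZMod m) → ℝ) (β : (ℕ →₀ ZMod m) → ℂ) :
    ∫ t, ∏ n ∈ s, (α n + (β n * chi m n t).re) ∂(haar m) = ∏ n ∈ s, α n := by
  classical
  have h1 : ∀ t, ((∏ n ∈ s, (α n + (β n * chi m n t).re) : ℝ) : ℂ) =
      ∑ p ∈ s.pi (fun _ => ({-1, 0, 1} : Finset ℤ)),
        (∏ x ∈ s.attach, co α β x.1 (p x.1 x.2)) * chi m (∑ x ∈ s.attach, p x.1 x.2 • x.1) t := by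
    intro t
    rw [Complex.ofReal_prod, Finset.prod_congr rfl fun n _ => factor_eq α β n t, prod_sum]
    refine sum_congr rfl fun p _ => ?_
    rw [prod_mul_distrib, chi_sum]
  have h2 : ((∫ t, ∏ n ∈ s, (α n + (β n * chi m n t).re) ∂(haar m) : ℝ) : ℂ) =
      ((∏ n ∈ s, α n : ℝ) : ℂ) := by
    rw [← integral_complex_ofReal]
    simp only [h1]
    rw [integral_finsetSum _ fun p _ => (integrable_chi _).const_mul _]
    rw [Finset.sum_eq_single (fun _ _ => (0 : ℤ))]
    · simp only [zero_smul, sum_const_zero]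
      rw [integral_const_mul, integral_chi_zero, mul_one]
      simp only [co, if_true]
      rw [Complex.ofReal_prod, ← Finset.prod_attach s (fun n => (α n : ℂ))]
    · intro p hp hne
      rw [integral_const_mul, integral_chi, mul_zero]
      intro h0
      apply hne
      let ξ : (ℕ →₀ ZMod m) → ℤ := fun x => if h : x ∈ s then p x h else 0
      have hξ : ∀ x (hx : x ∈ s), ξ x = p x hx := fun x hx => by simp [ξ, hx]
      have h3 : ∑ x ∈ s, ξ x • x = 0 := by
        rw [← h0, ← s.sum_attach]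
        exact sum_congr rfl fun x _ => by rw [hξ x.1 x.2]
      have h4 := hP s ξ hs (fun x hx => by
        have h5 := mem_pi.1 hp x hx
        rw [hξ x hx]
        simpa using h5) h3
      funext x hx
      rw [← hξ x hx]
      exact h4 x hx
    · intro hnot
      exact absurd (mem_pi.2 fun x _ => by simp) hnot
  exact_mod_cast h2

lemma integrable_of_continuous {f : (ℕ → ZMod m) → ℝ} (hf : Continuous f) : Integrable f (haar m) := by
  obtain ⟨C, hC⟩ := (isCompact_range hf).isBounded.exists_norm_le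
  exact Integrable.of_bound hf.aestronglyMeasurable C
    (Filter.Eventually.of_forall fun t => hC _ ⟨t, rfl⟩)

/-- The exponential moments of polynomials with spectrum in a quasi-independent set. -/
lemma mgf_le (P : Set (ℕ →₀ ZMod m)) (hP : QuasiIndependent P) (s : Finset (ℕ →₀ ZMod m)) (hs : ↑s ⊆ P)
    (b : (ℕ →₀ ZMod m) → ℂ) :
    ∫ t, Real.exp (∑ n ∈ s, b n * chi m n t).re ∂(haar m) ≤ Real.exp ((∑ n ∈ s, ‖b n‖ ^ 2) / 2) := by
  have hcont : Continuous (fun t => (∑ n ∈ s, b n * chi m n t).re) :=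
    Complex.continuous_re.comp (continuous_finsetSum _ fun n _ => continuous_const.mul (continuous_chi n))
  let α : (ℕ →₀ ZMod m) → ℝ := fun n => Real.cosh ‖b n‖
  let β : (ℕ →₀ ZMod m) → ℂ := fun n => ((Real.sinh ‖b n‖ / ‖b n‖ : ℝ) : ℂ) * b n
  have h1 : ∀ t, Real.exp (∑ n ∈ s, b n * chi m n t).re ≤ ∏ n ∈ s, (α n + (β n * chi m n t).re) := by
    intro t
    rw [Complex.re_sum, Real.exp_sum]
    refine prod_le_prod (fun n _ => (Real.exp_pos _).le) fun n _ => ?_
    have h2 : |(b n * chi m n t).re| ≤ ‖b n‖ := by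
      refine (Complex.abs_re_le_norm _).trans ?_
      rw [norm_mul, norm_chi, mul_one]
    have h3 := exp_le_cosh_add ‖b n‖ (b n * chi m n t).re (norm_nonneg _) h2
    refine h3.trans (le_of_eq ?_)
    have h4 : (β n * chi m n t).re = Real.sinh ‖b n‖ / ‖b n‖ * (b n * chi m n t).re := by
      simp only [β]
      rw [mul_assoc, Complex.re_ofReal_mul]
    rw [h4]
    simp only [α]
    ring
  calc ∫ t, Real.exp (∑ n ∈ s, b n * chi m n t).re ∂(haar m)
      ≤ ∫ t, ∏ n ∈ s, (α n + (β n * chi m n t).re) ∂(haar m) := by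
        refine integral_mono (integrable_of_continuous (Real.continuous_exp.comp hcont))
          (integrable_of_continuous (continuous_finsetProd _ fun n _ => continuous_factor α β n)) h1
    _ = ∏ n ∈ s, α n := riesz P hP s hs α β
    _ ≤ ∏ n ∈ s, Real.exp (‖b n‖ ^ 2 / 2) :=
        prod_le_prod (fun n _ => (Real.cosh_pos _).le) fun n _ => Real.cosh_le_exp_half_sq _
    _ = Real.exp ((∑ n ∈ s, ‖b n‖ ^ 2) / 2) := by rw [← Real.exp_sum, sum_div]

lemma pow_le_cosh (y : ℝ) (k : ℕ) : y ^ (2 * k) / (2 * k).factorial ≤ Real.cosh y := by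
  have h := Real.hasSum_cosh y
  exact le_hasSum h k fun j _ => div_nonneg (by rw [pow_mul]; positivity) (by positivity)

/-- From exponential moments to the integral of `exp (X²/c²)`. -/
lemma exp_sq_le (X : (ℕ → ZMod m) → ℝ) (hX : Continuous X) (τ : ℝ) (hτ : 0 < τ)
    (h : ∀ l : ℝ, ∫ t, Real.exp (l * X t) ∂(haar m) ≤ Real.exp (l ^ 2 * τ ^ 2 / 2)) (s : ℝ) (hs : 0 ≤ s)
    (hsτ : Real.exp 1 * s * τ ^ 2 ≤ 1 / 2) :
    ∫⁻ t, ENNReal.ofReal (Real.exp (s * X t ^ 2)) ∂(haar m) ≤ 2 := by
  have hterm : ∀ k : ℕ, ∫⁻ t, ENNReal.ofReal ((s * X t ^ 2) ^ k / k.factorial) ∂(haar m) ≤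
      ENNReal.ofReal ((1 / 2) ^ k) := by
    intro k
    rcases Nat.eq_zero_or_pos k with rfl | hk
    · simp
    have hkR : (0 : ℝ) < k := by exact_mod_cast hk
    set l : ℝ := Real.sqrt (2 * k) / τ with hl
    have hlpos : 0 < l := by positivity
    have hl2 : l ^ 2 = 2 * k / τ ^ 2 := by
      rw [hl, div_pow, Real.sq_sqrt (by positivity)]
    have hcosh : ∫ t, Real.cosh (l * X t) ∂(haar m) ≤ Real.exp k := by
      have e1 : ∀ t, Real.cosh (l * X t) = (1 / 2) * Real.exp (l * X t) + (1 / 2) * Real.exp (-l * X t) := by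
        intro t; rw [Real.cosh_eq]; rw [neg_mul]; ring
      simp only [e1]
      have i1 : Integrable (fun t => Real.exp (l * X t)) (haar m) :=
        integrable_of_continuous (by fun_prop)
      have i2 : Integrable (fun t => Real.exp (-l * X t)) (haar m) :=
        integrable_of_continuous (by fun_prop)
      rw [integral_add (i1.const_mul _) (i2.const_mul _), integral_const_mul, integral_const_mul]
      have h1 := h l
      have h2 := h (-l)
      have e2 : l ^ 2 * τ ^ 2 / 2 = k := by rw [hl2]; field_simp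
      rw [neg_sq] at h2
      rw [e2] at h1 h2
      linarith
    have hpt : ∀ t, (s * X t ^ 2) ^ k / k.factorial ≤
        (s ^ k * (2 * k).factorial / (l ^ (2 * k) * k.factorial)) * Real.cosh (l * X t) := by
      intro t
      have h1 := pow_le_cosh (l * X t) k
      have h2 : (s * X t ^ 2) ^ k / k.factorial =
          (s ^ k * (2 * k).factorial / (l ^ (2 * k) * k.factorial)) *
            ((l * X t) ^ (2 * k) / (2 * k).factorial) := by
        rw [mul_pow, mul_pow, ← pow_mul]
        field_simp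
      rw [h2]
      gcongr
    have hconst : (s ^ k * (2 * k).factorial / (l ^ (2 * k) * k.factorial)) * Real.exp k ≤ (1 / 2) ^ k := by
      have e1 : l ^ (2 * k) = (2 * k / τ ^ 2) ^ k := by rw [pow_mul, hl2]
      have e2 : ((2 * k).factorial : ℝ) ≤ (2 * k : ℝ) ^ k * k.factorial := by
        have h1 := Nat.factorial_mul_descFactorial (show k ≤ 2 * k by omega)
        have h2 := Nat.descFactorial_le_pow (2 * k) k
        have h3 : 2 * k - k = k := by omega
        rw [h3] at h1
        have h4 : (2 * k).factorial ≤ (2 * k) ^ k * k.factorial := by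
          rw [← h1, mul_comm]; exact Nat.mul_le_mul_right _ h2
        exact_mod_cast h4
      have e3 : Real.exp (k : ℝ) = Real.exp 1 ^ k := by
        rw [← Real.exp_nat_mul, mul_one]
      calc (s ^ k * (2 * k).factorial / (l ^ (2 * k) * k.factorial)) * Real.exp k
          ≤ (s ^ k * ((2 * k : ℝ) ^ k * k.factorial) / (l ^ (2 * k) * k.factorial)) * Real.exp k := by
            gcongr
        _ = (Real.exp 1 * s * τ ^ 2) ^ k := by
            rw [e1, e3, div_pow, mul_pow (Real.exp 1 * s), mul_pow (Real.exp 1)]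
            field_simp
        _ ≤ (1 / 2) ^ k := by gcongr
    calc ∫⁻ t, ENNReal.ofReal ((s * X t ^ 2) ^ k / k.factorial) ∂(haar m)
        ≤ ∫⁻ t, ENNReal.ofReal ((s ^ k * (2 * k).factorial / (l ^ (2 * k) * k.factorial)) *
            Real.cosh (l * X t)) ∂(haar m) :=
          lintegral_mono fun t => ENNReal.ofReal_le_ofReal (hpt t)
      _ = ENNReal.ofReal (∫ t, (s ^ k * (2 * k).factorial / (l ^ (2 * k) * k.factorial)) *
            Real.cosh (l * X t) ∂(haar m)) := by
          rw [ofReal_integral_eq_lintegral_ofReal]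
          · exact integrable_of_continuous (continuous_const.mul
              (Real.continuous_cosh.comp (continuous_const.mul hX)))
          · exact Filter.Eventually.of_forall fun t =>
              mul_nonneg (by positivity) (Real.cosh_pos _).le
      _ ≤ ENNReal.ofReal ((1 / 2) ^ k) := by
          refine ENNReal.ofReal_le_ofReal ?_
          rw [integral_const_mul]
          refine le_trans ?_ hconst
          gcongr
  have hexp : ∀ t, ENNReal.ofReal (Real.exp (s * X t ^ 2)) =
      ∑' k : ℕ, ENNReal.ofReal ((s * X t ^ 2) ^ k / k.factorial) := by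
    intro t
    have h1 : HasSum (fun k : ℕ => (s * X t ^ 2) ^ k / k.factorial) (Real.exp (s * X t ^ 2)) := by
      rw [Real.exp_eq_exp_ℝ]
      exact NormedSpace.expSeries_div_hasSum_exp (s * X t ^ 2)
    rw [← h1.tsum_eq, ENNReal.ofReal_tsum_of_nonneg (fun k => by positivity) h1.summable]
  calc ∫⁻ t, ENNReal.ofReal (Real.exp (s * X t ^ 2)) ∂(haar m)
      = ∫⁻ t, ∑' k : ℕ, ENNReal.ofReal ((s * X t ^ 2) ^ k / k.factorial) ∂(haar m) := by
        simp only [hexp]
    _ = ∑' k : ℕ, ∫⁻ t, ENNReal.ofReal ((s * X t ^ 2) ^ k / k.factorial) ∂(haar m) := by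
        refine lintegral_tsum fun k => ?_
        have : Continuous (fun t => (s * X t ^ 2) ^ k / (k.factorial : ℝ)) := by fun_prop
        exact this.measurable.ennreal_ofReal.aemeasurable
    _ ≤ ∑' k : ℕ, ENNReal.ofReal ((1 / 2) ^ k) := ENNReal.tsum_le_tsum hterm
    _ = 2 := by
        rw [← ENNReal.ofReal_tsum_of_nonneg (fun k => by positivity) summable_geometric_two,
          tsum_geometric_two]
        simp

/-- Exponential moments for polynomials with spectrum in a finite union of quasi-independent sets. -/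
lemma mgf_union {K : ℕ} (hK : 0 < K) (P : Fin K → Set (ℕ →₀ ZMod m)) (hP : ∀ i, QuasiIndependent (P i))
    (s : Finset (ℕ →₀ ZMod m)) (hs : ∀ n ∈ s, ∃ i, n ∈ P i) (b : (ℕ →₀ ZMod m) → ℂ) :
    ∫ t, Real.exp (∑ n ∈ s, b n * chi m n t).re ∂(haar m) ≤
      Real.exp ((K : ℝ) ^ 2 * (∑ n ∈ s, ‖b n‖ ^ 2) / 2) := by
  classical
  have hKR : (0 : ℝ) < K := by exact_mod_cast hK
  let j : (ℕ →₀ ZMod m) → Fin K := fun n => if h : ∃ i, n ∈ P i then h.choose else ⟨0, hK⟩
  have hj : ∀ n ∈ s, n ∈ P (j n) := by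
    intro n hn
    have h := hs n hn
    simp only [j, dif_pos h]
    exact h.choose_spec
  let f : Fin K → (ℕ → ZMod m) → ℝ := fun i t =>
    (∑ n ∈ s.filter (fun n => j n = i), ((K : ℂ) * b n) * chi m n t).re
  have hf : ∀ i, Continuous (f i) := fun i =>
    Complex.continuous_re.comp (continuous_finsetSum _ fun n _ => continuous_const.mul (continuous_chi n))
  have hsum : ∀ t, (∑ n ∈ s, b n * chi m n t).re = ∑ i, (1 / (K : ℝ)) * f i t := by
    intro t
    simp only [f]
    rw [← mul_sum, ← Complex.re_sum, sum_fiberwise]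
    have : ∑ n ∈ s, ((K : ℂ) * b n) * chi m n t = ((K : ℝ) : ℂ) * ∑ n ∈ s, b n * chi m n t := by
      rw [mul_sum]; refine sum_congr rfl fun n _ => ?_; push_cast; ring
    rw [this, Complex.re_ofReal_mul]
    field_simp
  have hmoment : ∀ i, ∫ t, Real.exp (f i t) ∂(haar m) ≤
      Real.exp ((K : ℝ) ^ 2 * (∑ n ∈ s, ‖b n‖ ^ 2) / 2) := by
    intro i
    refine (mgf_le (P i) (hP i) (s.filter (fun n => j n = i)) ?_ (fun n => (K : ℂ) * b n)).trans ?_
    · intro n hn
      have hn' := mem_filter.1 (show n ∈ s.filter (fun n => j n = i) from hn)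
      rw [← hn'.2]
      exact hj n hn'.1
    · refine Real.exp_le_exp.2 ?_
      gcongr
      calc ∑ n ∈ s.filter (fun n => j n = i), ‖(K : ℂ) * b n‖ ^ 2
          ≤ ∑ n ∈ s, ‖(K : ℂ) * b n‖ ^ 2 :=
            sum_le_sum_of_subset_of_nonneg (filter_subset _ _) fun _ _ _ => by positivity
        _ = (K : ℝ) ^ 2 * ∑ n ∈ s, ‖b n‖ ^ 2 := by
            rw [mul_sum]
            refine sum_congr rfl fun n _ => ?_
            rw [norm_mul, mul_pow]
            simp
  have hpt : ∀ t, Real.exp (∑ n ∈ s, b n * chi m n t).re ≤ ∑ i, (1 / (K : ℝ)) * Real.exp (f i t) := by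
    intro t
    rw [hsum t]
    have := convexOn_exp.map_sum_le (t := Finset.univ) (w := fun _ : Fin K => 1 / (K : ℝ))
      (p := fun i => f i t) (fun _ _ => by positivity) (by simp; field_simp) (fun _ _ => Set.mem_univ _)
    simpa using this
  have hint : ∀ i, Integrable (fun t => Real.exp (f i t)) (haar m) := fun i =>
    integrable_of_continuous (Real.continuous_exp.comp (hf i))
  calc ∫ t, Real.exp (∑ n ∈ s, b n * chi m n t).re ∂(haar m)
      ≤ ∫ t, ∑ i, (1 / (K : ℝ)) * Real.exp (f i t) ∂(haar m) := by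
        refine integral_mono (integrable_of_continuous (Real.continuous_exp.comp
          (Complex.continuous_re.comp (continuous_finsetSum _ fun n _ =>
            continuous_const.mul (continuous_chi n))))) ?_ hpt
        exact integrable_finsetSum _ fun i _ => (hint i).const_mul _
    _ = ∑ i, (1 / (K : ℝ)) * ∫ t, Real.exp (f i t) ∂(haar m) := by
        rw [integral_finsetSum _ fun i _ => (hint i).const_mul _]
        exact sum_congr rfl fun i _ => integral_const_mul _ _
    _ ≤ ∑ _i : Fin K, (1 / (K : ℝ)) * Real.exp ((K : ℝ) ^ 2 * (∑ n ∈ s, ‖b n‖ ^ 2) / 2) := by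
        refine sum_le_sum fun i _ => ?_
        have := hmoment i
        gcongr
    _ = Real.exp ((K : ℝ) ^ 2 * (∑ n ∈ s, ‖b n‖ ^ 2) / 2) := by
        rw [sum_const, card_univ, Fintype.card_fin, nsmul_eq_mul]
        field_simp

/-- **Finite unions of quasi-independent sets are subgaussian.** -/
theorem subgaussian_of_union (Λ : Set (ℕ →₀ ZMod m)) {K : ℕ} (P : Fin K → Set (ℕ →₀ ZMod m))
    (hΛ : Λ = ⋃ i, P i) (hP : ∀ i, QuasiIndependent (P i)) : Subgaussian m Λ := by
  refine ⟨4 * K, fun a ha => ?_⟩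
  set σ : ℝ := Real.sqrt (a.sum fun _ z => ‖z‖ ^ 2) with hσ
  have hσ0 : 0 ≤ σ := Real.sqrt_nonneg _
  have hσ2 : σ ^ 2 = ∑ n ∈ a.support, ‖a n‖ ^ 2 := by
    rw [hσ, Real.sq_sqrt]
    · rfl
    · exact sum_nonneg fun _ _ => by positivity
  have hsupp : ∀ n ∈ a.support, ∃ i, n ∈ P i := by
    intro n hn
    have : n ∈ Λ := ha hn
    rw [hΛ] at this
    exact Set.mem_iUnion.1 this
  -- every `c > 4 K σ` is admissible
  refine le_of_forall_pos_le_add fun ε hε => ?_
  refine csInf_le ⟨0, fun c hc => hc.1.le⟩ ⟨by positivity, ?_⟩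
  set c : ℝ := 4 * K * σ + ε with hc
  have hc0 : 0 < c := by positivity
  set F : (ℕ → ZMod m) → ℂ := fun t => a.sum fun n z => z * chi m n t with hF
  have hFeq : ∀ t, F t = ∑ n ∈ a.support, a n * chi m n t := fun t => rfl
  have hFc : Continuous F :=
    continuous_finsetSum _ fun n _ => continuous_const.mul (continuous_chi n)
  have he : (2 : ENNReal) ≤ ENNReal.ofReal (Real.exp 1) := by
    have h1 : (2 : ENNReal) = ENNReal.ofReal 2 := by simp
    rw [h1]
    refine ENNReal.ofReal_le_ofReal ?_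
    have := Real.exp_one_gt_d9
    linarith
  rcases Nat.eq_zero_or_pos K with hK0 | hK
  · -- no characters at all
    have hempty : a.support = ∅ := by
      rw [Finset.eq_empty_iff_forall_notMem]
      intro n hn
      obtain ⟨i, -⟩ := hsupp n hn
      exact absurd i.2 (by omega)
    have hF0 : ∀ t, F t = 0 := by intro t; rw [hFeq, hempty]; simp
    calc ∫⁻ t, ENNReal.ofReal (Real.exp (‖F t‖ ^ 2 / c ^ 2)) ∂(haar m)
        = 1 := by simp [hF0]
      _ ≤ 2 := by norm_num
      _ ≤ _ := he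
  have hKR : (0 : ℝ) < K := by exact_mod_cast hK
  -- moment bounds for real and imaginary parts
  have hmg : ∀ (w : ℂ), ‖w‖ = 1 → ∀ l : ℝ,
      ∫ t, Real.exp (l * (w * F t).re) ∂(haar m) ≤ Real.exp (l ^ 2 * (K * σ) ^ 2 / 2) := by
    intro w hw l
    have h1 := mgf_union hK P hP a.support hsupp (fun n => (l : ℂ) * w * a n)
    have e1 : ∀ t, (∑ n ∈ a.support, (l : ℂ) * w * a n * chi m n t).re = l * (w * F t).re := by
      intro t
      rw [← Complex.re_ofReal_mul, hFeq, mul_sum, mul_sum]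
      congr 1
      exact sum_congr rfl fun n _ => by ring
    have e2 : ∑ n ∈ a.support, ‖(l : ℂ) * w * a n‖ ^ 2 = l ^ 2 * σ ^ 2 := by
      rw [hσ2, mul_sum]
      refine sum_congr rfl fun n _ => ?_
      rw [norm_mul, norm_mul, hw, mul_one, mul_pow, Complex.norm_real, Real.norm_eq_abs, sq_abs]
    simp only [e1] at h1
    rw [e2] at h1
    refine h1.trans (le_of_eq ?_)
    congr 1
    ring
  -- replace `K σ` by a positive number
  set τ : ℝ := K * σ + ε / 4 with hτ
  have hτ0 : 0 < τ := by positivity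
  have hcτ : c = 4 * τ := by rw [hc, hτ]; ring
  have hbound : ∀ (w : ℂ), ‖w‖ = 1 →
      ∫⁻ t, ENNReal.ofReal (Real.exp (2 / c ^ 2 * (w * F t).re ^ 2)) ∂(haar m) ≤ 2 := by
    intro w hw
    refine exp_sq_le (fun t => (w * F t).re) (Complex.continuous_re.comp (continuous_const.mul hFc)) τ
      hτ0 (fun l => (hmg w hw l).trans (Real.exp_le_exp.2 ?_)) (2 / c ^ 2) (by positivity) ?_
    · have : (K : ℝ) * σ ≤ τ := by rw [hτ]; linarith
      gcongr
    · rw [hcτ]
      have h1 : Real.exp 1 * (2 / (4 * τ) ^ 2) * τ ^ 2 = Real.exp 1 / 8 := by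
        field_simp; ring
      rw [h1]
      have := Real.exp_one_lt_d9
      linarith
  have hre := hbound 1 (by simp)
  have him := hbound (-Complex.I) (by simp)
  have hsplit : ∀ t, ENNReal.ofReal (Real.exp (‖F t‖ ^ 2 / c ^ 2)) ≤
      ENNReal.ofReal (1 / 2) * ENNReal.ofReal (Real.exp (2 / c ^ 2 * ((1 : ℂ) * F t).re ^ 2)) +
      ENNReal.ofReal (1 / 2) * ENNReal.ofReal (Real.exp (2 / c ^ 2 * (-Complex.I * F t).re ^ 2)) := by
    intro t
    rw [← ENNReal.ofReal_mul (by norm_num), ← ENNReal.ofReal_mul (by norm_num),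
      ← ENNReal.ofReal_add (by positivity) (by positivity)]
    refine ENNReal.ofReal_le_ofReal ?_
    have e1 : ((1 : ℂ) * F t).re = (F t).re := by rw [one_mul]
    have e2 : (-Complex.I * F t).re = (F t).im := by simp
    rw [e1, e2]
    have e3 : ‖F t‖ ^ 2 / c ^ 2 = (1 / 2) * (2 / c ^ 2 * (F t).re ^ 2) + (1 / 2) * (2 / c ^ 2 * (F t).im ^ 2) := by
      rw [← Complex.normSq_eq_norm_sq, Complex.normSq_apply]
      field_simp
    rw [e3]
    have := convexOn_exp.2 (Set.mem_univ (2 / c ^ 2 * (F t).re ^ 2))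
      (Set.mem_univ (2 / c ^ 2 * (F t).im ^ 2)) (by norm_num : (0 : ℝ) ≤ 1 / 2)
      (by norm_num : (0 : ℝ) ≤ 1 / 2) (by norm_num)
    simpa only [smul_eq_mul] using this
  have hmeas : ∀ w : ℂ, Measurable (fun t => ENNReal.ofReal (Real.exp (2 / c ^ 2 * (w * F t).re ^ 2))) := by
    intro w
    have : Continuous (fun t => Real.exp (2 / c ^ 2 * (w * F t).re ^ 2)) := by
      have := Complex.continuous_re.comp (continuous_const.mul hFc : Continuous fun t => w * F t)
      exact Real.continuous_exp.comp (continuous_const.mul (this.pow 2))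
    exact this.measurable.ennreal_ofReal
  calc ∫⁻ t, ENNReal.ofReal (Real.exp (‖F t‖ ^ 2 / c ^ 2)) ∂(haar m)
      ≤ ∫⁻ t, (ENNReal.ofReal (1 / 2) * ENNReal.ofReal (Real.exp (2 / c ^ 2 * ((1 : ℂ) * F t).re ^ 2)) +
        ENNReal.ofReal (1 / 2) * ENNReal.ofReal (Real.exp (2 / c ^ 2 * (-Complex.I * F t).re ^ 2)))
          ∂(haar m) := lintegral_mono hsplit
    _ = ENNReal.ofReal (1 / 2) * ∫⁻ t, ENNReal.ofReal (Real.exp (2 / c ^ 2 * ((1 : ℂ) * F t).re ^ 2)) ∂(haar m) +
        ENNReal.ofReal (1 / 2) * ∫⁻ t, ENNReal.ofReal (Real.exp (2 / c ^ 2 * (-Complex.I * F t).re ^ 2))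
          ∂(haar m) := by
        rw [lintegral_add_left ((hmeas 1).const_mul _), lintegral_const_mul _ (hmeas 1),
          lintegral_const_mul _ (hmeas (-Complex.I))]
    _ ≤ ENNReal.ofReal (1 / 2) * 2 + ENNReal.ofReal (1 / 2) * 2 := by gcongr
    _ = 2 := by
        have : (2 : ENNReal) = ENNReal.ofReal 2 := by simp
        rw [this, ← ENNReal.ofReal_mul (by norm_num), ← ENNReal.ofReal_add (by norm_num) (by norm_num)]
        norm_num
    _ ≤ _ := he

end Pool.Agent.K7.H85.Sidon
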